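import Mathlib
import Pool.Agent.Lib.helper12.Grig

namespace Pool.Agent.Results.MP_4717c3_al.Unit

open Pool.Agent.Lib.helper12.Grig MonoidAlgebra

def tau : List Bool → List Bool
  | [] => []
  | false :: w => false :: act .a w
  | true :: w => true :: tau w

lemma tau_sum {M : Type} [AddCommMonoid M] (w : List Bool) : ∀ f : List Bool → M,
    f (act .b w) + f (act .c w) + f (act .d w) = f (tau w) + f (tau w) + f w := by
  induction w with
  | nil => intro f; rfl
  | cons x w ih =>
    intro f
    cases x
    · rfl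
    · rw [tau, ← ih (fun v => f (true :: v))]
      simp only [act]
      abel

lemma tau_tau (w : List Bool) : tau (tau w) = w := by
  induction w with
  | nil => rfl
  | cons x w ih => cases x <;> simp [tau, act_act, ih]

def sig (w : List Bool) : List Bool := act .a (tau w)

lemma sig_inf (n : ℕ) : 0 < n → ¬ ∀ w, sig^[n] w = w := by
  induction n using Nat.strong_induction_on with
  | _ n ih =>
  intro hn h
  have e : ∀ m w, sig^[2 * m] (true :: w) = true :: sig^[m] w := by
    intro m
    induction m with
    | zero => intro w; rfl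
    | succ m ih2 =>
      intro w
      rw [show 2 * (m + 1) = 2 * m + 1 + 1 by ring, Function.iterate_succ_apply,
        Function.iterate_succ_apply, Function.iterate_succ_apply, ← ih2]
      rfl
  obtain ⟨m, rfl | rfl⟩ := Nat.even_or_odd' n
  · exact ih m (by omega) (by omega) (fun w => by simpa [e] using h (true :: w))
  · have := h [true]
    rw [Function.iterate_succ_apply', e] at this
    simp [sig, tau, act] at this

def g (s : Gen) : Grig := ⟨gen s, Subgroup.subset_closure ⟨s, rfl⟩⟩

noncomputable def o (s : Gen) : MonoidAlgebra (ZMod 3) Grig := of (ZMod 3) Grig (g s)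

lemma o_mul {s t u : Gen} (h : ∀ w, act s (act t w) = act u w) : o s * o t = o u := by
  rw [o, o, ← map_mul]
  exact congrArg _ (Subtype.ext (Equiv.ext h))

lemma o_sq (s : Gen) : o s * o s = 1 := by
  rw [o, ← map_mul, ← map_one (of (ZMod 3) Grig)]
  exact congrArg _ (Subtype.ext (Equiv.ext (act_act s)))

instance : CharP (MonoidAlgebra (ZMod 3) Grig) 3 := charP_of_injective_algebraMap' (ZMod 3) 3

noncomputable def T : MonoidAlgebra (ZMod 3) Grig := 1 - o .b - o .c - o .d

lemma T_sq : T * T = 1 := by
  have h3 : (3 : MonoidAlgebra (ZMod 3) Grig) = 0 := CharP.cast_eq_zero _ 3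
  simp only [T, mul_sub, sub_mul, mul_one, one_mul, o_sq, o_mul (fun w => (klein w).1.1),
    o_mul (fun w => (klein w).1.2), o_mul (fun w => (klein w).2.1.1),
    o_mul (fun w => (klein w).2.1.2), o_mul (fun w => (klein w).2.2.1),
    o_mul (fun w => (klein w).2.2.2)]
  rw [← sub_eq_zero, ← h3]
  noncomm_ring
  simp

theorem result : ∃ (p : ℕ) (F : Type) (_ : Field F) (G : Type) (_ : Group G),
    p.Prime ∧ CharP F p ∧ Monoid.IsTorsion Fˣ ∧ Monoid.IsTorsion G ∧
    ∃ u : (MonoidAlgebra F G)ˣ, ∀ i : ℕ, 1 ≤ i →
      ¬ IsNilpotent ((u : MonoidAlgebra F G) ^ i - 1) := by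
  have : Fact (Nat.Prime 3) := ⟨Nat.prime_three⟩
  refine ⟨3, ZMod 3, inferInstance, Grig, inferInstance, Nat.prime_three, inferInstance,
    isTorsion_of_finite, torsion, ⟨o .a * T, T * o .a, ?_, ?_⟩, ?_⟩
  · rw [mul_assoc, ← mul_assoc T, T_sq, one_mul, o_sq]
  · rw [mul_assoc, ← mul_assoc (o .a), o_sq, one_mul, T_sq]
  rintro i hi ⟨k, hk⟩
  have h1 : (o .a * T) ^ (i * 3 ^ k) = 1 := by
    have h2 := pow_eq_zero_of_le (Nat.lt_pow_self (by norm_num : 1 < 3)).le hk
    rw [sub_pow_char_pow_of_commute 3 k (Commute.one_right _), one_pow, sub_eq_zero,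
      ← pow_mul] at h2
    exact h2
  let ρ := (Representation.ofMulAction (ZMod 3) Grig (List Bool)).asAlgebraHom
  have h2 : ∀ s w, ρ (o s) (.single w 1) = .single (act s w) 1 := fun s w => by
    simp only [ρ, o, Representation.asAlgebraHom_of, Representation.ofMulAction_single]
    rfl
  have h3 : ∀ w, ρ (o .a * T) (.single w 1) = .single (sig w) 1 := by
    intro w
    have h4 : ρ T (.single w 1) = .single (tau w) 1 := by
      simp only [T, map_sub, map_one, LinearMap.sub_apply, Module.End.one_apply, h2]
      rw [sub_sub, sub_sub, ← add_assoc, tau_sum w (fun v => MonoidAlgebra.single v (1 : ZMod 3)),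
        add_comm, sub_add_cancel_left, ← MonoidAlgebra.single_add, ← MonoidAlgebra.single_neg]
      rfl
    rw [map_mul, Module.End.mul_apply, h4, h2]
    rfl
  have h4 : ∀ n w, ρ ((o .a * T) ^ n) (.single w 1) = .single (sig^[n] w) 1 := by
    intro n
    induction n with
    | zero => intro w; simp
    | succ n ih =>
      intro w
      rw [pow_succ, map_mul, Module.End.mul_apply, h3, ih]
      rfl
  refine sig_inf (i * 3 ^ k) (by positivity) (fun w => ?_)
  have := h4 (i * 3 ^ k) w
  rw [h1, map_one, Module.End.one_apply] at this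
  exact (MonoidAlgebra.single_left_injective one_ne_zero this).symm

end Pool.Agent.Results.MP_4717c3_al.Unit
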